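import Pool.Agent.H10.Lamp
import Pool.Agent.H10.QI

namespace Pool.Agent.Results.MP_9803f8_al.NotWeak
open Pool.Agent.H10.Lamp Pool.Agent.H10.QI Equiv MulAction LaurentPolynomial
open scoped commutatorElement

/-- `G` has a faithful action on an infinite set which is `k`-transitive for every `k`. -/
def HT (G : Type) [Group G] : Prop := ∃ (Ω : Type) (_ : MulAction G Ω), FaithfulSMul G Ω ∧
  Infinite Ω ∧ ∀ k, IsMultiplyPretransitive G Ω k

/-- isomorphic finite index subgroups -/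
def Comm (G H : Type) [Group G] [Group H] : Prop :=
  ∃ (K : Subgroup G) (K' : Subgroup H), K.FiniteIndex ∧ K'.FiniteIndex ∧ Nonempty (K ≃* K')

noncomputable def B0 : V →+ ZMod 2 := .mk' (fun v => v.coeff 0) fun _ _ => by simp

noncomputable def z : G B0 := ⟨0, 0, 1, 0⟩

theorem z_mem (K : Subgroup (G B0)) [K.FiniteIndex] : z ∈ K := by
  have n := K.normalCore_normal
  have h1 := K.normalCore.pow_index_mem (gen B0 0)
  have n0 : (K.normalCore.index : ℤ) ≠ 0 := by exact_mod_cast Subgroup.FiniteIndex.index_ne_zero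
  rw [← zpow_natCast, tpow] at h1
  have h2 := mul_mem h1 (n.conj_mem _ (inv_mem h1) (gen B0 2))
  have h3 := mul_mem (n.conj_mem _ h2 (gen B0 1)) (inv_mem h2)
  rw [← commutatorElement_def, comm _ _ rfl rfl (by simp [gen]) (by simp [gen])] at h3
  refine K.normalCore_le ?_
  generalize (K.normalCore.index : ℤ) = j at n0 h3
  have e : ((⟨0, 0, 0, j⟩ : G B0) * (gen B0 2 * (⟨0, 0, 0, j⟩ : G B0)⁻¹ * (gen B0 2)⁻¹)).w =
      T j - 1 := by
    have := TT j
    simp [gen, -T_mul]
    linear_combination -this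
  rw [e] at h3
  convert h3 using 1
  ext1 <;> simp [gen, B0, z, n0]

theorem ht {Ω : Type} [DecidableEq Ω] (H : Subgroup (Perm Ω)) (h : ∀ x y, swap x y ∈ H) (k : ℕ)
    (x y : Fin k ↪ Ω) : ∃ g ∈ H, ∀ i, g (x i) = y i := by
  induction k with
  | zero => exact ⟨1, one_mem _, fun i => i.elim0⟩
  | succ k ih =>
    obtain ⟨g, g1, g2⟩ := ih ((Fin.succEmb k).trans x) ((Fin.succEmb k).trans y)
    refine ⟨swap (g (x 0)) (y 0) * g, mul_mem (h _ _) g1, Fin.cases (by simp) fun i => ?_⟩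
    have : g (x i.succ) = y i.succ := g2 i
    rw [Perm.mul_apply, swap_apply_of_ne_of_ne (by simp) (by simp [this]), this]

theorem result : ∃ (G H : Type) (_ : Group G) (_ : Group H), Group.FG G ∧ Group.FG H ∧ HT H ∧
    QI G H ∧ ∀ (G' : Type) [Group G'], Comm G G' → ¬ HT G' := by
  classical
  let S : Finset (G B0) := {gen B0 0, gen B0 1, gen B0 2, z}
  have c : ∀ x : ZMod 2, x = 0 ∨ x = 1 := by decide
  have hS : Subgroup.closure (S : Set (G B0)) = ⊤ := gen_top _
    (fun i => Subgroup.subset_closure (by fin_cases i <;> simp [S])) fun x => by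
      rcases c x with rfl | rfl
      · exact one_mem _
      · exact Subgroup.subset_closure (by simp [S, z])
  let ι : G B0 →* Perm L × G B0 := ((toPermHom L L).comp pr).prod (.id _)
  let Γ := Subgroup.closure (ι '' S ∪ (fun s : G B0 => (swap 1 (pr s), 1)) '' S)
  have fg : Group.FG Γ := (Group.fg_iff_subgroup_fg _).2 ((Subgroup.fg_iff _).2
    ⟨_, rfl, (S.finite_toSet.image _).union (S.finite_toSet.image _)⟩)
  have h1 : ∀ g, ι g ∈ Γ := fun g => (show ι.range ≤ Γ by
    rw [MonoidHom.range_eq_map, ← hS, MonoidHom.map_closure]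
    exact Subgroup.closure_mono Set.subset_union_left) ⟨g, rfl⟩
  let q := (MonoidHom.fst _ _).comp Γ.subtype
  have hp : Function.Surjective (pr (B := B0)) := fun g => ⟨⟨g.v, g.w, 0, g.k⟩, rfl⟩
  have h2 : ∀ g : G B0, ∀ x, swap x (x * pr g) ∈ q.range := fun g => by
    have : g ∈ Subgroup.closure (S : Set (G B0)) := hS ▸ trivial
    induction this using Subgroup.closure_induction with
    | mem s hs =>
      intro x
      obtain ⟨x, rfl⟩ := hp x
      have a : toPerm (pr x) ∈ q.range := ⟨⟨_, h1 x⟩, rfl⟩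
      have b : swap 1 (pr s) ∈ q.range := ⟨⟨_, Subgroup.subset_closure (.inr ⟨s, hs, rfl⟩)⟩, rfl⟩
      simpa [← swap_apply_apply] using mul_mem (mul_mem a b) (inv_mem a)
    | one => simp [← Perm.one_def]
    | mul a b _ _ ha hb =>
      exact fun x => SubmonoidClass.swap_mem_trans _ (ha x) (by simpa [mul_assoc] using hb (x * pr a))
    | inv a _ ha => exact fun x => by simpa [swap_comm] using ha (x * pr a⁻¹)
  have inf : Infinite L := .of_injective (fun k : ℤ => (⟨0, 0, 0, k⟩ : L)) fun _ _ => congrArg G.k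
  have h3 : ∀ g ∈ Γ, (fixedBy L (g.1 * (ι g.2).1⁻¹))ᶜ.Finite := fun g hg => by
    rw [← mem_closure_isSwap']
    have n : (Subgroup.closure {σ : Perm L | σ.IsSwap}).Normal := ⟨fun a ha b => by
      rw [mem_closure_isSwap'] at ha ⊢
      rw [← smul_fixedBy, ← Set.smul_set_compl]
      exact ha.smul_set⟩
    induction hg using Subgroup.closure_induction with
    | mem s hs =>
      rcases hs with ⟨s, -, rfl⟩ | ⟨s, -, rfl⟩
      · simp [ι]
      · simpa using mem_closure_isSwap'.2 finite_compl_fixedBy_swap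
    | one => simp
    | mul a b _ _ ha hb =>
      convert mul_mem (n.conj_mem _ hb a.1) ha using 1
      simp only [Prod.fst_mul, Prod.snd_mul, map_mul]; group
    | inv a _ ha =>
      convert n.conj_mem _ (inv_mem ha) a.1⁻¹ using 1
      simp only [Prod.fst_inv, Prod.snd_inv, map_inv]; group
  let w : Γ := ⟨_, h1 z⟩
  have w1 : (w : Perm L × G B0).1 = 1 := (toPermHom L L).map_one
  obtain ⟨S1, hS1⟩ := fg.1
  refine ⟨Γ, q.range, inferInstance, inferInstance, fg, inferInstance, ⟨L, inferInstance,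
    inferInstance, inf, fun k => ⟨fun x y => ?_⟩⟩, qi _ q.rangeRestrict_surjective (insert w S1)
      (top_unique (hS1.ge.trans (Subgroup.closure_mono (by simp)))) fun g hg => ?_, ?_⟩
  · obtain ⟨g, g1, g2⟩ := ht q.range (fun a b => by
      obtain ⟨g, hg⟩ := hp (a⁻¹ * b)
      simpa [hg] using h2 g a) k x y
    exact ⟨⟨g, g1⟩, Function.Embedding.ext g2⟩
  · have g1 : g.1.1 = 1 := congrArg Subtype.val hg
    obtain ⟨x, hx⟩ := (h3 _ g.2).infinite_compl.nonempty
    have g2 : pr g.1.2 = 1 := by simpa [g1, ι, Perm.smul_def] using hx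
    have : g.1.2 = ⟨0, 0, g.1.2.x, 0⟩ :=
      G.ext (congrArg G.v g2 :) (congrArg G.w g2 :) rfl (congrArg G.k g2 :)
    refine (c g.1.2.x).imp (fun h => Subtype.ext (Prod.ext g1 ?_)) fun h =>
      Finset.mem_insert.2 (.inl (Subtype.ext (Prod.ext (g1.trans w1.symm) ?_)))
    · rw [this, h]; rfl
    · rw [this, h]; rfl
  rintro G' _ ⟨K, K', _, _, ⟨e⟩⟩ ⟨Ω, _, _, _, h⟩
  have : (K.comap (ι.codRestrict Γ h1)).FiniteIndex := ⟨by
    rw [Subgroup.index_comap]; exact Subgroup.FiniteIndex.index_ne_zero⟩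
  have wK : w ∈ K := z_mem (K.comap (ι.codRestrict Γ h1))
  have cz : ∀ k : K', k * e ⟨w, wK⟩ = e ⟨w, wK⟩ * k := fun k => by
    obtain ⟨k, rfl⟩ := e.surjective k
    rw [← map_mul, ← map_mul]
    refine congrArg e (Subtype.ext (Subtype.ext (Prod.ext (by simp [w1]) ?_)))
    change k.1.1.2 * z = z * k.1.1.2
    ext1 <;> simp [z, add_comm]
  obtain ⟨x, hx⟩ : ∃ x : Ω, (e ⟨w, wK⟩ : G') • x ≠ x := by
    by_contra! hx
    have : e ⟨w, wK⟩ = 1 := Subtype.ext (eq_of_smul_eq_smul fun x : Ω => by simp [hx])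
    have := congrArg (fun k : K => k.1.1.2.x) (e.map_eq_one_iff.1 this)
    exact one_ne_zero (α := ZMod 2) this
  refine (Set.finite_singleton x).infinite_compl ((Set.finite_range fun u : G' ⧸ K' =>
    (u.out * e ⟨w, wK⟩ * u.out⁻¹) • x).subset fun y hy => ?_)
  obtain ⟨g, g1, g2⟩ := is_two_pretransitive_iff.1 (h 2) hx.symm (Ne.symm hy)
  obtain ⟨k, hk⟩ := QuotientGroup.mk_out_eq_mul K' g
  refine ⟨g, ?_⟩
  simp only [hk]
  rw [mul_assoc g, ← K'.coe_mul, cz, K'.coe_mul, mul_inv_rev, ← mul_assoc, ← mul_assoc,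
    mul_inv_cancel_right, mul_smul, mul_smul, inv_smul_eq_iff.2 g1.symm, g2]

end Pool.Agent.Results.MP_9803f8_al.NotWeak
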